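import Mathlib

/-!
# Preference realizability for polyhedral norms: the instance (MP_d633a5_lc)

Records for alternatives and voters, their integer keys, and the whole profile attached to
`m` clauses of three literals.  Facets of the unit ball are numbered `0, ..., k-1`; the number `k`
is used as the class of the alternatives `p_j` which lie in the facet `U` or in the facet `D`.
-/

namespace Pool.Agent.Helper20.PR

/-- alternatives: class, base position, clause (`0` = none, otherwise `c + 1`), index -/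
abbrev AR : Type := ℕ × ℤ × ℕ × ℕ

/-- voters: list of facet values; switch: class, clause, threshold, sign -/
abbrev VR : Type := List ℤ × ℕ × ℕ × ℕ × ℤ

/-- the tie breaking term -/
def sw (v : VR) (a : AR) : ℤ :=
  if a.1 = v.2.1 ∧ a.2.2.1 = v.2.2.1 then
    (if a.2.2.2 ≤ v.2.2.2.1 then v.2.2.2.2 else - v.2.2.2.2) else 0

/-- the base key -/
def bkey (v : VR) (a : AR) : ℤ := a.2.1 - v.1.getD a.1 0

/-- the key by which the voter `v` sorts the alternatives -/
def key (v : VR) (a : AR) : ℤ := 4 * bkey v a + sw v a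

/-- combinatorial data of a polyhedral norm with `k` facets: four facets `U, D, R, L`
(`D = -U`, `L = -R`), the values `tx, ty` of the facets at two vectors spanning the plane of the
voters, and the values `W i` of the facets at a vector at which the facet `i` is the largest -/
structure Tab where
  k : ℕ
  U : ℕ
  D : ℕ
  R : ℕ
  L : ℕ
  tx : ℕ → ℤ
  ty : ℕ → ℤ
  W : ℕ → ℕ → ℤ
  w : ℤ
  U_lt : U < k
  D_lt : D < k
  R_lt : R < k
  L_lt : L < k
  UD : U ≠ D
  UR : U ≠ R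
  UL : U ≠ L
  DR : D ≠ R
  DL : D ≠ L
  RL : R ≠ L
  tx_R : tx R = 1
  tx_L : tx L = -1
  tx_U : tx U = 0
  tx_D : tx D = 0
  tx_k : tx k = 0
  tx_le : ∀ i, -1 ≤ tx i ∧ tx i ≤ 1
  ty_R : ty R = 0
  ty_L : ty L = 0
  ty_U : ty U = 1
  ty_D : ty D = -1
  ty_le : ∀ i, -1 ≤ ty i ∧ ty i ≤ 1
  W_k : ∀ i, W i k = 0
  W_le : ∀ i j, -w ≤ W i j ∧ W i j ≤ w
  W_max : ∀ i < k, ∀ j < k, j ≠ i → W i j < W i i
  W_U : ∀ i < k, i ≠ U → i ≠ D → W i U = 0
  W_D : ∀ i < k, i ≠ U → i ≠ D → W i D = 0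
  W_min : ∀ j < k, j ≠ D → W U D < W U j
  W_UD : W U D = - W U U

namespace Tab

variable (t : Tab)

/-- vertical displacement of the voter `o2` -/
def Y : ℤ := 2 * t.k + 4

/-- depth of the anchors `n_U`, `n_D` below the tie anchors -/
def Q : ℤ := 2 * t.w * t.Y + 4

/-- vertical displacement of the voters `t_U`, `t_D` -/
def T1 : ℤ := t.Q + 2 * t.k + 4

/-- spacing of the variables (half) -/
def G : ℤ := 4 * t.w * t.T1 + 8

/-- spacing of the clauses (half) -/
def S (m : ℕ) : ℤ := 200 * t.G * (m + 1)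

/-- base position of the chains of class `L` (half) -/
def B (m : ℕ) : ℤ := 8 * (t.S m * (m + 1)) * (m + 1)

/-- displacement of the voters `t_i`, `i ≠ U, D` -/
def T (m : ℕ) : ℤ := 2000 * t.B m * (t.k + 1)

/-- position (half) of the `j`-th variable -/
def hA (m j : ℕ) : ℤ := t.G * (3 * m + 1 + j)

/-- position (half) of the frame used for a literal of sign `b` -/
def hα (b : Bool) : ℤ := if b then 1 else 0

/-- length (half) of the dummy segment -/
def L0 (m : ℕ) : ℤ := 20 * t.G * (m + 1)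

/-- length (half) of the segment of a literal with variable `j` and sign `b` -/
def Λ (m : ℕ) (j : ℕ) (b : Bool) : ℤ := t.hA m j - hα b

variable (m : ℕ) (j : ℕ → ℕ → ℕ) (b : ℕ → ℕ → Bool)

/-- offsets (half) of the chain of class `R` of the clause `c` -/
def oE (c i : ℕ) : ℤ :=
  (if 1 ≤ i then t.L0 m else 0) + (if 2 ≤ i then t.Λ m (j c 0) (b c 0) else 0) +
    (if 3 ≤ i then t.Λ m (j c 1) (b c 1) else 0) + (if 4 ≤ i then t.Λ m (j c 2) (b c 2) else 0)

/-- offsets (half) of the chain of class `L` of the clause `c` -/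
def oG (c i : ℕ) : ℤ :=
  (if 1 ≤ i then t.Λ m (j c 0) (b c 0) else 0) + (if 2 ≤ i then t.Λ m (j c 1) (b c 1) else 0) +
    (if 3 ≤ i then t.Λ m (j c 2) (b c 2) else 0) + (if 4 ≤ i then t.L0 m else 0)

/-- positions (half) of the chain of class `R` -/
def hE (c i : ℕ) : ℤ := t.S m * (c + 1) + t.oE m j b c i

/-- positions (half) of the chain of class `L` -/
def hG (c i : ℕ) : ℤ := t.B m + t.S m * (m + 1) * (c + 1) + t.oG m j b c i

/-! ### alternatives -/

/-- near anchors -/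
def aN (i : ℕ) : AR :=
  (i, if i = t.U then -20 * t.B m - t.Q else if i = t.D then -20 * t.B m - t.Q - 2 else
    -200 * t.B m * (i + 2), 0, 0)

/-- tie anchors -/
def aZ (i : ℕ) : AR :=
  (i, if i = t.U then -20 * t.B m - 2 else if i = t.D then -20 * t.B m + 2 * t.k else
    -20 * t.B m + 2 * i, 0, 0)

/-- the frame of class `U` -/
def aU : AR := (t.U, 0, 0, 0)

/-- the frame of class `D` -/
def aD : AR := (t.D, 2, 0, 0)

/-- the variables -/
def aP (i : ℕ) : AR := (t.k, 2 * t.hA m i, 0, i)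

/-- the chains of class `R` -/
def aE (c i : ℕ) : AR := (t.R, 2 * t.hE m j b c i, c + 1, i)

/-- the chains of class `L` -/
def aG (c i : ℕ) : AR := (t.L, 2 * t.hG m j b c i, c + 1, i)

/-- the list of all alternatives -/
def alts : List AR :=
  (List.range t.k).map (t.aN m) ++ (List.range t.k).map (t.aZ m) ++ [t.aU, t.aD] ++
    (List.range (3 * m)).map (t.aP m) ++
    (List.range m).flatMap (fun c => (List.range 5).map (fun i => t.aE m j b c i)) ++
    (List.range m).flatMap (fun c => (List.range 5).map (fun i => t.aG m j b c i))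

/-! ### voters -/

/-- multiple of a list -/
def scal (x : ℤ) (l : List ℤ) : List ℤ := l.map (fun y => x * y)

/-- table of the facet values `W i` -/
def WL (i : ℕ) : List ℤ := (List.range (t.k + 1)).map (t.W i)

/-- table of the facet values `tx` -/
def XL : List ℤ := (List.range (t.k + 1)).map t.tx

/-- the voters `t_i`, `i ≠ U, D` -/
def vT (i : ℕ) : VR := (scal (-t.T m) (t.WL i), 0, 0, 0, 0)

/-- voters displaced vertically -/
def vV (x : ℤ) : VR := (scal (-x) (t.WL t.U), 0, 0, 0, 0)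

/-- voters displaced horizontally -/
def vH (x : ℤ) (C c q : ℕ) (s : ℤ) : VR := (scal x t.XL, C, c, q, s)

/-- literal voters of the first kind -/
def vv (c i : ℕ) : VR :=
  t.vH (2 * (t.hE m j b c (i + 1) - hα (b c i))) t.R (c + 1) (i + 1) (-1)

/-- literal voters of the second kind -/
def vw (c i : ℕ) : VR :=
  t.vH (2 * (hα (b c i) - t.hG m j b c i)) t.L (c + 1) i 1

/-- clause voters comparing the whole chains -/
def vC (c : ℕ) : VR := t.vH (t.hE m j b c 0 - t.hG m j b c 0) t.L (c + 1) 0 (-1)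

/-- clause voters comparing the dummy segments -/
def vD (c : ℕ) : VR := t.vH (t.hE m j b c 0 - t.hG m j b c 3) t.L (c + 1) 3 1

/-- the voter `t_i`, for any `i` -/
def vt (i : ℕ) : VR := if i = t.U then t.vV t.T1 else if i = t.D then t.vV (-t.T1) else t.vT m i

/-- the voters `v_+`, `v_-` -/
def vX (s : ℤ) : VR := t.vH (40 * s * t.B m) 0 0 0 0

/-- the list of all voters -/
def voters : List VR :=
  (List.range t.k).map (t.vt m) ++ [t.vV 0, t.vV t.Y, t.vX m 1, t.vX m (-1)] ++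
    (List.range m).flatMap (fun c => (List.range 3).map (fun i => t.vv m j b c i)) ++
    (List.range m).flatMap (fun c => (List.range 3).map (fun i => t.vw m j b c i)) ++
    (List.range m).map (fun c => t.vC m j b c) ++ (List.range m).map (fun c => t.vD m j b c)

end Tab

/-! ### the ordinal facts used for soundness -/

/-- `lt v a b` : the voter `v` ranks `a` before `b` -/
structure OrdFacts {α β : Type} (lt : β → α → α → Prop) (k U D R L m : ℕ) (j : ℕ → ℕ → ℕ)
    (b : ℕ → ℕ → Bool) (n z : ℕ → α) (us ds : α) (p : ℕ → α) (e g : ℕ → ℕ → α)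
    (t : ℕ → β) (o1 o2 vp vm : β) (v w : ℕ → ℕ → β) (Wc Wd : ℕ → β) (Gad : β → Prop) :
    Prop where
  gad_v : ∀ c < m, ∀ i < 3, Gad (v c i)
  gad_w : ∀ c < m, ∀ i < 3, Gad (w c i)
  gad_c : ∀ c < m, Gad (Wc c)
  gad_d : ∀ c < m, Gad (Wd c)
  /-- (1) -/
  t_n : ∀ i < k, ∀ i' < k, i' ≠ i → lt (t i) (n i') (n i)
  /-- (2) -/
  t_z : ∀ i < k, ∀ i' < k, i' ≠ i → lt (t i) (z i') (n i)
  o1_n : ∀ i < k, ∀ i' < k, i' ≠ i → lt o1 (n i') (z i)
  o2_n : ∀ i < k, ∀ i' < k, i' ≠ i → lt o2 (n i') (z i)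
  vp_U : ∀ i' < k, i' ≠ U → lt vp (n i') (z U)
  vp_D : ∀ i' < k, i' ≠ D → lt vp (n i') (z D)
  vm_U : ∀ i' < k, i' ≠ U → lt vm (n i') (z U)
  vm_D : ∀ i' < k, i' ≠ D → lt vm (n i') (z D)
  /-- (3) -/
  o1_U : ∀ i < k, i ≠ U → lt o1 (z U) (z i)
  o1_D : ∀ i < k, i ≠ D → lt o1 (z i) (z D)
  o2_U : ∀ i < k, i ≠ U → lt o2 (z i) (z U)
  o2_D : ∀ i < k, i ≠ D → lt o2 (z D) (z i)
  /-- (4) -/
  reg_us : ∀ x, (x = o1 ∨ x = o2 ∨ Gad x) → ∀ i < k, i ≠ U → i ≠ D → lt x (n i) us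
  reg_ds : ∀ x, (x = o1 ∨ x = o2 ∨ Gad x) → ∀ i < k, i ≠ U → i ≠ D → lt x (n i) ds
  reg_p : ∀ x, (x = o1 ∨ x = o2 ∨ Gad x) → ∀ i < k, i ≠ U → i ≠ D → ∀ l < 3 * m, lt x (n i) (p l)
  t_us : ∀ i < k, i ≠ U → i ≠ D → lt (t i) us (n i)
  t_ds : ∀ i < k, i ≠ U → i ≠ D → lt (t i) ds (n i)
  t_p : ∀ i < k, i ≠ U → i ≠ D → ∀ l < 3 * m, lt (t i) (p l) (n i)
  /-- (5) -/
  gad_e : ∀ x, Gad x → ∀ c < m, ∀ i < 5, ∀ l < k, l ≠ U → l ≠ D → lt x (n l) (e c i)
  gad_eU : ∀ x, Gad x → ∀ c < m, ∀ i < 5, lt x (z U) (e c i)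
  gad_eD : ∀ x, Gad x → ∀ c < m, ∀ i < 5, lt x (z D) (e c i)
  gad_g : ∀ x, Gad x → ∀ c < m, ∀ i < 5, ∀ l < k, l ≠ U → l ≠ D → lt x (n l) (g c i)
  gad_gU : ∀ x, Gad x → ∀ c < m, ∀ i < 5, lt x (z U) (g c i)
  gad_gD : ∀ x, Gad x → ∀ c < m, ∀ i < 5, lt x (z D) (g c i)
  t_e : ∀ l < k, l ≠ U → l ≠ D → l ≠ R → ∀ c < m, ∀ i < 5, lt (t l) (e c i) (n l)
  t_g : ∀ l < k, l ≠ U → l ≠ D → l ≠ L → ∀ c < m, ∀ i < 5, lt (t l) (g c i) (n l)
  vp_e : ∀ c < m, ∀ i < 5, lt vp (e c i) (z U) ∧ lt vp (e c i) (z D)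
  vm_g : ∀ c < m, ∀ i < 5, lt vm (g c i) (z U) ∧ lt vm (g c i) (z D)
  /-- (6) -/
  o1_f : lt o1 us ds
  o2_f : lt o2 ds us
  /-- (7) -/
  v_p : ∀ c < m, ∀ i < 3, lt (v c i) (p (j c i)) (e c (i + 2))
  v_h : ∀ c < m, ∀ i < 3, lt (v c i) (e c (i + 1)) (if b c i then ds else us)
  w_h : ∀ c < m, ∀ i < 3, lt (w c i) (if b c i then ds else us) (g c i)
  w_p : ∀ c < m, ∀ i < 3, lt (w c i) (g c (i + 1)) (p (j c i))
  c_0 : ∀ c < m, lt (Wc c) (g c 0) (e c 0)
  c_4 : ∀ c < m, lt (Wc c) (e c 4) (g c 4)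
  d_0 : ∀ c < m, lt (Wd c) (e c 0) (g c 3)
  d_1 : ∀ c < m, lt (Wd c) (g c 4) (e c 1)

namespace Tab

variable (t : Tab) (m : ℕ) (j : ℕ → ℕ → ℕ) (b : ℕ → ℕ → Bool)

/-- the gadget voters -/
def IsGad (x : VR) : Prop :=
  ∃ c < m, (∃ i < 3, x = t.vv m j b c i ∨ x = t.vw m j b c i) ∨ x = t.vC m j b c ∨
    x = t.vD m j b c

/-- the ordinal facts for the records, with `lt` the order by keys -/
def Facts (lt : VR → AR → AR → Prop) : Prop :=
  OrdFacts lt t.k t.U t.D t.R t.L m j b (t.aN m) (t.aZ m) t.aU t.aD (t.aP m) (t.aE m j b)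
    (t.aG m j b) (t.vt m) (t.vV 0) (t.vV t.Y) (t.vX m 1) (t.vX m (-1)) (t.vv m j b) (t.vw m j b)
    (t.vC m j b) (t.vD m j b) (t.IsGad m j b)

/-! ### the realisation attached to an assignment -/

variable (τ : ℕ → Bool)

/-- perturbation of the segment of a literal in the chains of class `R` (in units of `1/256`) -/
def dE (c i : ℕ) : ℤ := if τ (j c i) = b c i then -8 else 1

/-- perturbation of the segment of a literal in the chains of class `L` (in units of `1/256`) -/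
def dG (c i : ℕ) : ℤ := if τ (j c i) = b c i then 8 else -1

/-- perturbations of the chains of class `R` (in units of `1/256`) -/
def pE (c i : ℕ) : ℤ :=
  (if 1 ≤ i then 1 else 0) + (if 2 ≤ i then dE j b τ c 0 else 0) +
    (if 3 ≤ i then dE j b τ c 1 else 0) + (if 4 ≤ i then dE j b τ c 2 else 0)

/-- perturbations of the chains of class `L` (in units of `1/256`) -/
def pG (c i : ℕ) : ℤ :=
  (if 1 ≤ i then dG j b τ c 0 else 0) + (if 2 ≤ i then dG j b τ c 1 else 0) +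
    (if 3 ≤ i then dG j b τ c 2 else 0) + (if 4 ≤ i then -1 else 0)

/-- offsets of the alternatives -/
noncomputable def off (a : AR) : ℝ :=
  (a.2.1 : ℝ) + (if a.2.2.1 = 0 then 0 else if a.1 = t.R then
    (pE j b τ (a.2.2.1 - 1) a.2.2.2 : ℝ) / 256 else (pG j b τ (a.2.2.1 - 1) a.2.2.2 : ℝ) / 256)

/-- classes of the alternatives -/
def cls (a : AR) : ℕ := if a.1 = t.k then (if τ a.2.2.2 then t.U else t.D) else a.1

/-- the facet values which the vectors of the norm can take -/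
def Allowed (φ : ℕ → ℝ) : Prop :=
  (∃ x y : ℝ, ∀ i, φ i = t.tx i * x + t.ty i * y) ∨
    (∃ l < t.k, ∃ x : ℝ, ∀ i, φ i = t.W l i * x)

/-- the voter `v` is satisfied by the realisation, with facet values `φ` -/
def Good (v : VR) (φ : ℕ → ℝ) : Prop :=
  ∀ x ∈ t.alts m j b, ∀ y ∈ t.alts m j b, x ≠ y → key v x ≤ key v y →
    t.off j b τ x - φ (t.cls τ x) < t.off j b τ y - φ (t.cls τ y)

end Tab

end Pool.Agent.Helper20.PR
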