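import Pool.Agent.Helper20.PR.Defs

/-!
Polyhedral norms: the data used.
-/

namespace Pool.Agent.Helper20.PR

/-- a norm which is the maximum of `k` linear functionals, closed under negation -/
structure PolyNorm (V : Type) [AddCommGroup V] [Module ℝ V] (k : ℕ) where
  N : V → ℝ
  f : ℕ → V →ₗ[ℝ] ℝ
  le : ∀ i < k, ∀ x, f i x ≤ N x
  att : ∀ x, ∃ i < k, f i x = N x
  neg : ∀ i < k, ∃ i' < k, ∀ x, f i' x = - f i x

/-- the norm `P` has the combinatorial data `t` -/
structure Fits {V : Type} [AddCommGroup V] [Module ℝ V] (t : Tab) (P : PolyNorm V t.k) :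
    Prop where
  /-- every facet has an interior point -/
  cen : ∀ i < t.k, ∃ x, P.f i x = 1 ∧ ∀ i' < t.k, i' ≠ i → P.f i' x < 1
  /-- the allowed facet values are taken -/
  allowed : ∀ φ, t.Allowed φ → ∃ x : V, ∀ i < t.k, P.f i x = φ i

end Pool.Agent.Helper20.PR
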