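import Mathlib

/-!
# Preference realizability (MP_d633a5_lc): the decision problem

An instance is a number `n` (the alternatives are `0, ..., n-1`) together with a list of rankings
of the alternatives, one for each voter, listed explicitly from the best alternative to the worst.
-/

namespace Pool.Agent.Helper20.PR

/-- every voter ranks each of the alternatives `0, ..., n-1` exactly once -/
def IsProfile (I : ℕ × List (List ℕ)) : Prop :=
  ∀ r ∈ I.2, r.Perm (List.range I.1)

/-- `x i` is the position of the voter `i`, `a b` is the position of the alternative `b`; if the
voter `i` ranks `b` before `c` then `b` is strictly closer to the voter than `c`, where the distance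
of two points is `N` of their difference -/
def Realizable {V : Type} [AddCommGroup V] (N : V → ℝ) (I : ℕ × List (List ℕ)) : Prop :=
  ∃ x a : ℕ → V, ∀ i (hi : i < I.2.length),
    (I.2[i]).Pairwise (fun b c => N (x i - a b) < N (x i - a c))

/-- the realizability problem for the space `V` with the norm `N` -/
def REAL {V : Type} [AddCommGroup V] (N : V → ℝ) : Set (ℕ × List (List ℕ)) :=
  {I | IsProfile I ∧ Realizable N I}

end Pool.Agent.Helper20.PR
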